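import Pool.Agent.W646.CQ.Taylor

set_option autoImplicit false

/-!
# CQ-ASN: the final Taylor estimate
-/

namespace Pool.Agent.W646.CQ

open Metric Set Filter Topology Asymptotics
open Pool.Agent.W722.Cq

/-- the real linear embedding `(y, s) ↦ (0, y, i s)` -/
noncomputable def TT (k : ℕ) : V k × ℝ →L[ℝ] EE k :=
  (0 : V k × ℝ →L[ℝ] ℂ).prod ((ContinuousLinearMap.fst ℝ (V k) ℝ).prod
    ((Complex.ofRealCLM.smulRight Complex.I).comp (ContinuousLinearMap.snd ℝ (V k) ℝ)))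

lemma TT_apply (k : ℕ) (y : V k) (s : ℝ) : TT k (y, s) = (0, y, (s : ℂ) * Complex.I) := by
  simp [TT]

lemma num1 (a n q : ℝ) (h : n ^ 2 ≤ q) : a * n ≤ a ^ 2 + q := by
  nlinarith [sq_nonneg (a - n), sq_nonneg a, sq_nonneg n]

lemma numfin (p1 p2 p3 p4 u s y x : ℝ) (h1 : 0 ≤ p1) (h2 : 0 ≤ p2) (h3 : 0 ≤ p3) (h4 : 0 ≤ p4)
    (hu : 0 ≤ u) (hs : 0 ≤ s) (hy : 0 ≤ y) (hx : 0 ≤ x) :
    2 * p1 * u + 2 * p2 * (y + s) + p3 * (x + (y + s)) + p4 * x ≤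
      (2 * p1 + 2 * p2 + p3 + p4) * (u + s + y + x) := by
  have := mul_nonneg h1 hu
  have := mul_nonneg h1 hs
  have := mul_nonneg h1 hy
  have := mul_nonneg h1 hx
  have := mul_nonneg h2 hu
  have := mul_nonneg h2 hs
  have := mul_nonneg h2 hy
  have := mul_nonneg h2 hx
  have := mul_nonneg h3 hu
  have := mul_nonneg h3 hs
  have := mul_nonneg h3 hy
  have := mul_nonneg h3 hx
  have := mul_nonneg h4 hu
  have := mul_nonneg h4 hs
  have := mul_nonneg h4 hy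
  have := mul_nonneg h4 hx
  linarith

set_option maxHeartbeats 1600000 in
theorem asn : S_ASN := by
  intro k r m P hm hN hcur hRc
  obtain ⟨L1, δ1, hL1, hδ1, h1⟩ := fo r hN.smooth
  obtain ⟨L2, δ2, hL2, hδ2, h2⟩ := so r hN.smooth
  obtain ⟨L4, hL4, hL4'⟩ := hcur.exists_pos
  obtain ⟨δ4, hδ4, h4⟩ := Metric.eventually_nhds_iff_ball.1 hL4'.bound
  -- the linear coefficient
  obtain ⟨L3, δ3, hL3, hδ3, h3⟩ : ∃ L3 δ3 : ℝ, 0 < L3 ∧ 0 < δ3 ∧ ∀ x : ℂ, ‖x‖ < δ3 →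
      ∀ (y : V k) (s : ℝ), |Rc r y s x| ≤ L3 * ‖x‖ ^ (m + 1) * ‖(y, s)‖ := by
    let bs := Module.finBasis ℝ (V k × ℝ)
    obtain ⟨C, hC, hC'⟩ := bs.exists_opNorm_le (F := ℝ)
    have hh : ∀ i, ∃ c : ℝ, 0 < c ∧ ∀ᶠ x in 𝓝 (0 : ℂ),
        ‖Rc r (bs i).1 (bs i).2 x‖ ≤ c * ‖‖x‖ ^ (m + 1)‖ := by
      intro i
      obtain ⟨c, hc, hc'⟩ := (hRc (bs i).1 (bs i).2).exists_pos
      exact ⟨c, hc, hc'.bound⟩
    choose c hc hc' using hh
    have hall : ∀ᶠ x in 𝓝 (0 : ℂ), ∀ i, ‖Rc r (bs i).1 (bs i).2 x‖ ≤ c i * ‖‖x‖ ^ (m + 1)‖ :=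
      Filter.eventually_all.2 hc'
    obtain ⟨δ, hδ, h⟩ := Metric.eventually_nhds_iff_ball.1 hall
    have hcs : 0 ≤ ∑ i, c i := Finset.sum_nonneg fun i _ => (hc i).le
    refine ⟨C * ∑ i, c i + 1, δ, by positivity, hδ, ?_⟩
    intro x hx y s
    have hle := hC' (u := (fderiv ℝ r (x, 0, 0)).comp (TT k))
      (M := (∑ i, c i) * ‖x‖ ^ (m + 1)) (by positivity) (by
        intro i
        have hi := h x (mem_ball_zero_iff.2 hx) i
        have e : ((fderiv ℝ r (x, 0, 0)).comp (TT k)) (bs i) = Rc r (bs i).1 (bs i).2 x := by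
          rw [ContinuousLinearMap.comp_apply, ← Prod.mk.eta (p := bs i), TT_apply]
          rfl
        rw [e]
        refine hi.trans ?_
        rw [norm_pow, norm_norm]
        apply mul_le_mul_of_nonneg_right _ (by positivity)
        exact Finset.single_le_sum (fun j _ => (hc j).le) (Finset.mem_univ i))
    have e : Rc r y s x = ((fderiv ℝ r (x, 0, 0)).comp (TT k)) (y, s) := by
      rw [ContinuousLinearMap.comp_apply, TT_apply]
      rfl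
    rw [e, ← Real.norm_eq_abs]
    refine (ContinuousLinearMap.le_opNorm _ _).trans ?_
    apply mul_le_mul_of_nonneg_right _ (norm_nonneg _)
    refine hle.trans ?_
    have : (0 : ℝ) ≤ ‖x‖ ^ (m + 1) := by positivity
    nlinarith
  refine ⟨2 * L1 + 2 * L2 + L3 + L4, min (min (δ1 / 2) (δ2 / 2)) (min δ3 δ4), by positivity,
    by positivity, ?_⟩
  rintro ⟨x, y, w⟩ hz
  set z : EE k := (x, y, w) with hzdef
  have hz1 : ‖z‖ < δ1 / 2 := hz.trans_le ((min_le_left _ _).trans (min_le_left _ _))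
  have hz2 : ‖z‖ < δ2 / 2 := hz.trans_le ((min_le_left _ _).trans (min_le_right _ _))
  have hz3 : ‖z‖ < δ3 := hz.trans_le ((min_le_right _ _).trans (min_le_left _ _))
  have hz4 : ‖z‖ < δ4 := hz.trans_le ((min_le_right _ _).trans (min_le_right _ _))
  have hx : ‖x‖ ≤ ‖z‖ := norm_fst_le z
  have hyw : ‖((y, w) : V k × ℂ)‖ ≤ ‖z‖ := norm_snd_le z
  have hy : ‖y‖ ≤ ‖z‖ := (norm_fst_le ((y, w) : V k × ℂ)).trans hyw
  have hw : ‖w‖ ≤ ‖z‖ := (norm_snd_le ((y, w) : V k × ℂ)).trans hyw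
  set u := w.re with hu
  set s := w.im with hs
  have hs' : |s| ≤ ‖z‖ := (Complex.abs_im_le_norm w).trans hw
  have hu' : |u| ≤ ‖z‖ := (Complex.abs_re_le_norm w).trans hw
  -- step (a)
  set Y : EE k := (0, y, (s : ℂ) * Complex.I) with hY
  set b : EE k := (x, 0, 0) with hb
  have hYn : ‖Y‖ = max ‖y‖ |s| := by
    rw [hY, Prod.norm_def, Prod.norm_def]
    simp
  have hYz : ‖Y‖ ≤ ‖z‖ := by rw [hYn]; exact max_le hy hs'
  have hbn : ‖b‖ = ‖x‖ := by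
    rw [hb, Prod.norm_def, Prod.norm_def]
    simp
  have hbY : ‖b + Y‖ ≤ ‖z‖ := by
    have : b + Y = (x, y, (s : ℂ) * Complex.I) := by simp [hb, hY]
    rw [this, Prod.norm_def, Prod.norm_def]
    simp only [norm_mul, Complex.norm_real, Complex.norm_I, mul_one, Real.norm_eq_abs]
    exact max_le hx (max_le hy hs')
  set W : EE k := (0, 0, (u : ℂ)) with hW
  have hWn : ‖W‖ = |u| := by
    rw [hW, Prod.norm_def, Prod.norm_def]
    simp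
  have hzeq : z = (b + Y) + W := by
    have : w = (u : ℂ) + (s : ℂ) * Complex.I := (Complex.re_add_im w).symm
    rw [hzdef, hb, hY, hW]
    ext1
    · simp
    · ext1
      · simp
      · show w = (0 + (s : ℂ) * Complex.I) + (u : ℂ)
        rw [zero_add, add_comm]
        exact this
  have ha := h1 (b + Y) W (by rw [hWn]; linarith)
  rw [← hzeq, hN.d1 W, hWn] at ha
  have hWre : W.2.2.re = u := by simp [hW]
  rw [hWre, Real.norm_eq_abs] at ha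
  have ha' : |r z - r (b + Y) - u| ≤ 2 * L1 * ‖z‖ * |u| := by
    refine ha.trans ?_
    have h0 : 0 ≤ |u| := abs_nonneg u
    have h00 : L1 * (‖b + Y‖ + |u|) ≤ 2 * L1 * ‖z‖ := by nlinarith
    exact mul_le_mul_of_nonneg_right h00 h0
  -- step (b)
  have hbb := h2 b Y (by linarith)
  have hd2 := hN.d2 y s
  rw [← hY] at hd2
  rw [hd2] at hbb
  have hYsq : ‖Y‖ ^ 2 ≤ ‖y‖ ^ 2 + s ^ 2 := by
    rw [hYn]
    rcases le_total ‖y‖ |s| with h | h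
    · rw [max_eq_right h, sq_abs]
      have := sq_nonneg ‖y‖
      linarith
    · rw [max_eq_left h]
      have := sq_nonneg s
      linarith
  have hbb' : |r (b + Y) - r b - fderiv ℝ r b Y - ‖y‖ ^ 2| ≤ 2 * L2 * ‖z‖ * (‖y‖ ^ 2 + s ^ 2) := by
    have e : r (b + Y) - r b - fderiv ℝ r b Y - ‖y‖ ^ 2 =
      r (b + Y) - r b - fderiv ℝ r b Y - 1 / 2 * (2 * ‖y‖ ^ 2) := by ring
    rw [e]
    refine hbb.trans ?_
    have h00 : L2 * (‖b‖ + ‖Y‖) ≤ 2 * L2 * ‖z‖ := by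
      rw [hbn]
      nlinarith
    have h01 : 0 ≤ 2 * L2 * ‖z‖ := by positivity
    exact mul_le_mul h00 hYsq (by positivity) h01
  -- step (c)
  have hc := h3 x (by linarith) y s
  have hRcb : Rc r y s x = fderiv ℝ r b Y := rfl
  rw [hRcb] at hc
  have hysn : ‖((y, s) : V k × ℝ)‖ = ‖Y‖ := by
    rw [hYn, Prod.norm_def]
    simp
  rw [hysn] at hc
  have hc' : |fderiv ℝ r b Y| ≤ L3 * ‖z‖ * (‖x‖ ^ (2 * m) + (‖y‖ ^ 2 + s ^ 2)) := by
    refine hc.trans ?_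
    have e1 : L3 * ‖x‖ ^ (m + 1) * ‖Y‖ = L3 * ‖x‖ * (‖x‖ ^ m * ‖Y‖) := by ring
    have e2 : ‖x‖ ^ m * ‖Y‖ ≤ ‖x‖ ^ (2 * m) + (‖y‖ ^ 2 + s ^ 2) := by
      have : ‖x‖ ^ (2 * m) = (‖x‖ ^ m) ^ 2 := by rw [← pow_mul]; ring_nf
      rw [this]
      exact num1 _ _ _ hYsq
    rw [e1]
    have h00 : L3 * ‖x‖ ≤ L3 * ‖z‖ := mul_le_mul_of_nonneg_left hx hL3.le
    have h01 : 0 ≤ ‖x‖ ^ m * ‖Y‖ := by positivity
    have h02 : 0 ≤ L3 * ‖z‖ := by positivity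
    exact mul_le_mul h00 e2 h01 h02
  -- step (d)
  have hd := h4 x (mem_ball_zero_iff.2 (by linarith))
  have hd' : |r b - P x| ≤ L4 * ‖z‖ * ‖x‖ ^ (2 * m) := by
    rw [Real.norm_eq_abs, norm_pow, norm_norm] at hd
    have e1 : cur r x = r b := rfl
    rw [e1] at hd
    refine hd.trans ?_
    rw [pow_succ]
    have h01 : (0 : ℝ) ≤ ‖x‖ ^ (2 * m) := by positivity
    have : L4 * (‖x‖ ^ (2 * m) * ‖x‖) = L4 * ‖x‖ * ‖x‖ ^ (2 * m) := by ring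
    rw [this]
    apply mul_le_mul_of_nonneg_right _ h01
    exact mul_le_mul_of_nonneg_left hx hL4.le
  -- conclusion
  have hrho : rho0 P z = u + ‖y‖ ^ 2 + P x := by simp [rho0, hzdef, hu]
  have hWt : Wt m z = |u| + s ^ 2 + ‖y‖ ^ 2 + ‖x‖ ^ (2 * m) := by simp [Wt, hzdef, hu, hs]
  rw [hrho, hWt]
  have e : r z - (u + ‖y‖ ^ 2 + P x) = (r z - r (b + Y) - u) +
      (r (b + Y) - r b - fderiv ℝ r b Y - ‖y‖ ^ 2) + fderiv ℝ r b Y + (r b - P x) := by ring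
  rw [e]
  have t1 := abs_add_le ((r z - r (b + Y) - u) +
      (r (b + Y) - r b - fderiv ℝ r b Y - ‖y‖ ^ 2) + fderiv ℝ r b Y) (r b - P x)
  have t2 := abs_add_le ((r z - r (b + Y) - u) +
      (r (b + Y) - r b - fderiv ℝ r b Y - ‖y‖ ^ 2)) (fderiv ℝ r b Y)
  have t3 := abs_add_le (r z - r (b + Y) - u) (r (b + Y) - r b - fderiv ℝ r b Y - ‖y‖ ^ 2)
  have fin := numfin (L1 * ‖z‖) (L2 * ‖z‖) (L3 * ‖z‖) (L4 * ‖z‖) |u| (s ^ 2) (‖y‖ ^ 2)
    (‖x‖ ^ (2 * m)) (by positivity) (by positivity) (by positivity) (by positivity)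
    (abs_nonneg u) (sq_nonneg s) (sq_nonneg _) (by positivity)
  have e5 : (2 * L1 + 2 * L2 + L3 + L4) * ‖z‖ * (|u| + s ^ 2 + ‖y‖ ^ 2 + ‖x‖ ^ (2 * m)) =
      (2 * (L1 * ‖z‖) + 2 * (L2 * ‖z‖) + L3 * ‖z‖ + L4 * ‖z‖) *
        (|u| + s ^ 2 + ‖y‖ ^ 2 + ‖x‖ ^ (2 * m)) := by ring
  rw [e5]
  refine le_trans ?_ fin
  linarith

end Pool.Agent.W646.CQ
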