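import Pool.Agent.W646.CQ.Taylor

set_option autoImplicit false

/-!
# CQ-PAR: paraboloidal approach in terms of the defining function
-/

namespace Pool.Agent.W646.CQ

open Metric Set Filter Topology Asymptotics
open Pool.Agent.W722.Cq

lemma infDist_frontier_le {n : ℕ} {D : Set (V n)} {z z' : V n} (hz : z ∈ D) (hz' : z' ∉ D) :
    infDist z (frontier D) ≤ dist z z' := by
  have hne : D ≠ univ := by
    rintro rfl
    exact hz' (mem_univ _)
  obtain ⟨y, hy, hy'⟩ := exists_mem_frontier_infDist_compl_eq_dist hz hne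
  calc infDist z (frontier D) ≤ dist z y := infDist_le_dist_of_mem hy
    _ = infDist z Dᶜ := hy'.symm
    _ ≤ dist z z' := infDist_le_dist_of_mem hz'

lemma numpar (b f a A C N I L A' : ℝ) (hA : 0 < A) (hf : 0 ≤ f) (hN : 0 ≤ N)
    (h1 : b ^ 2 - a ^ 2 / A ^ 2 ≤ C ^ 2 * I) (hI : I ≤ 2 * N * f) (ha : |a| ≤ f + L * b ^ 2)
    (hL : 0 ≤ L) (hb : 2 * L ^ 2 * b ^ 2 / A ^ 2 ≤ 1 / 2) (hf1 : f ≤ 1) :
    b ^ 2 ≤ (4 * C ^ 2 * N + 4 / A ^ 2) * f := by
  have h2 : a ^ 2 ≤ 2 * f + 2 * L ^ 2 * b ^ 2 * b ^ 2 := by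
    have h3 : a ^ 2 ≤ (f + L * b ^ 2) ^ 2 := by
      rw [← sq_abs a]
      exact pow_le_pow_left₀ (abs_nonneg a) ha 2
    nlinarith [sq_nonneg (f - L * b ^ 2), mul_nonneg hf (sub_nonneg.2 hf1)]
  have h4 : a ^ 2 / A ^ 2 ≤ 2 * f / A ^ 2 + 1 / 2 * b ^ 2 := by
    calc a ^ 2 / A ^ 2 ≤ (2 * f + 2 * L ^ 2 * b ^ 2 * b ^ 2) / A ^ 2 := by gcongr
      _ = 2 * f / A ^ 2 + 2 * L ^ 2 * b ^ 2 / A ^ 2 * b ^ 2 := by ring
      _ ≤ _ := by
        have := mul_le_mul_of_nonneg_right hb (sq_nonneg b)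
        linarith
  have h5 : C ^ 2 * I ≤ C ^ 2 * (2 * N * f) := mul_le_mul_of_nonneg_left hI (sq_nonneg C)
  have h6 : (4 * C ^ 2 * N + 4 / A ^ 2) * f = 2 * (C ^ 2 * (2 * N * f)) + 2 * (2 * f / A ^ 2) := by
    ring
  rw [h6]
  linarith

set_option maxHeartbeats 1600000 in
theorem par : S_PAR := by
  intro n D U r p C hD hU hpU hpD hr hdr hDU hC
  -- r p = 0
  have hpnD : p ∉ D := by
    intro h
    have := hD.frontier_eq ▸ hpD
    exact this.2 h
  have hrp : r p = 0 := by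
    apply le_antisymm
    · have h1 : p ∈ closure (D ∩ U) := by
        have : p ∈ closure D ∩ U := ⟨frontier_subset_closure hpD, hpU⟩
        exact hU.closure_inter this
      have h2 : closure (D ∩ U) ⊆ {z | r z ≤ 0} := by
        apply closure_minimal
        · rw [hDU]
          intro z hz
          exact le_of_lt hz.2
        · exact isClosed_le hr.continuous continuous_const
      exact h2 h1
    · by_contra h
      push Not at h
      have : p ∈ D ∩ U := by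
        rw [hDU]
        exact ⟨hpU, h⟩
      exact hpnD this.1
  -- direction
  obtain ⟨N, hN⟩ : ∃ N : V n, fderiv ℝ r p N = 1 := by
    obtain ⟨v, hv⟩ : ∃ v, fderiv ℝ r p v ≠ 0 := by
      by_contra h
      push Not at h
      exact hdr (ContinuousLinearMap.ext h)
    exact ⟨(fderiv ℝ r p v)⁻¹ • v, by simp [hv]⟩
  -- Taylor
  set f : V n → ℝ := fun z => r (p + z) with hf
  have hfs : ContDiff ℝ ((⊤ : ℕ∞) : WithTop ℕ∞) f := hr.comp (contDiff_const.add contDiff_id)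
  have hf0 : fderiv ℝ f 0 = fderiv ℝ r p := by
    rw [hf, fderiv_comp_add_left, add_zero]
  obtain ⟨L, δ, hL, hδ, hT⟩ := fo f hfs
  rw [hf0] at hT
  set A := ‖fderiv ℝ r p‖ with hA
  have hApos : 0 < A := norm_pos_iff.2 hdr
  set A' := A + L * δ with hA'
  have hA'pos : 0 < A' := by positivity
  have hfb : ∀ b : V n, ‖b‖ < δ → |f b - fderiv ℝ r p b| ≤ L * ‖b‖ ^ 2 ∧ |f b| ≤ A' * ‖b‖ := by
    intro b hb
    have h1 := hT 0 b (by simpa using hb)
    have h0 : f 0 = 0 := by simp [hf, hrp]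
    rw [zero_add, h0, sub_zero, norm_zero, zero_add, Real.norm_eq_abs] at h1
    have h2 : |f b - fderiv ℝ r p b| ≤ L * ‖b‖ ^ 2 := by
      refine h1.trans (le_of_eq ?_)
      ring
    refine ⟨h2, ?_⟩
    have h3 : |fderiv ℝ r p b| ≤ A * ‖b‖ := by
      rw [← Real.norm_eq_abs]
      exact ContinuousLinearMap.le_opNorm _ _
    have h4 : |f b| ≤ |f b - fderiv ℝ r p b| + |fderiv ℝ r p b| := by
      have := abs_add_le (f b - fderiv ℝ r p b) (fderiv ℝ r p b)
      simpa using this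
    have h5 : L * ‖b‖ ^ 2 ≤ L * δ * ‖b‖ := by
      have : L * ‖b‖ ^ 2 = L * ‖b‖ * ‖b‖ := by ring
      rw [this]
      gcongr
    rw [hA']
    linarith
  obtain ⟨u, hu, hu'⟩ := Metric.isOpen_iff.1 hU p hpU
  set B := 1 + 2 * A' * ‖N‖ with hB
  have hBpos : 0 < B := by positivity
  -- the radius
  set τ : ℝ := min (min (δ / B) (u / B)) (min (1 / (2 * L * B * (‖N‖ + 1)))
    (min (1 / A') (A / (2 * L)))) with hτ
  refine ⟨4 * C ^ 2 * ‖N‖ + 4 / A ^ 2, τ, by positivity, by positivity, ?_⟩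
  intro z hzD hzp hpar
  set b : V n := z - p with hb
  have hτ1 : ‖b‖ * B < δ := by
    rw [← lt_div_iff₀ hBpos]
    exact hzp.trans_le ((min_le_left _ _).trans (min_le_left _ _))
  have hτ2 : ‖b‖ * B < u := by
    rw [← lt_div_iff₀ hBpos]
    exact hzp.trans_le ((min_le_left _ _).trans (min_le_right _ _))
  have hτ3 : ‖b‖ * (2 * L * B * (‖N‖ + 1)) < 1 := by
    rw [← lt_div_iff₀ (by positivity)]
    exact hzp.trans_le ((min_le_right _ _).trans (min_le_left _ _))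
  have hτ4 : ‖b‖ * A' < 1 := by
    rw [← lt_div_iff₀ hA'pos]
    exact hzp.trans_le ((min_le_right _ _).trans ((min_le_right _ _).trans (min_le_left _ _)))
  have hτ5 : ‖b‖ * (2 * L) < A := by
    rw [← lt_div_iff₀ (by positivity)]
    exact hzp.trans_le ((min_le_right _ _).trans ((min_le_right _ _).trans (min_le_right _ _)))
  have hnb : 0 ≤ ‖b‖ := norm_nonneg b
  have hB1 : 1 ≤ B := by
    rw [hB]
    have : 0 ≤ 2 * A' * ‖N‖ := by positivity
    linarith
  have hbB : ‖b‖ ≤ ‖b‖ * B := le_mul_of_one_le_right hnb hB1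
  have hbδ : ‖b‖ < δ := hbB.trans_lt hτ1
  have hzU : z ∈ U := by
    apply hu'
    rw [mem_ball, dist_eq_norm]
    exact hbB.trans_lt hτ2
  have hrz : r z < 0 := by
    have : z ∈ D ∩ U := ⟨hzD, hzU⟩
    rw [hDU] at this
    exact this.2
  refine ⟨hrz, ?_⟩
  have hfz : f b = r z := by simp [hf, hb]
  obtain ⟨hf1, hf2⟩ := hfb b hbδ
  -- the point outside
  set t : ℝ := 2 * (-(r z)) with ht
  have htpos : 0 < t := by linarith
  have habs : |f b| = -(r z) := by rw [hfz, abs_of_neg hrz]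
  have ht' : t ≤ 2 * (A' * ‖b‖) := by
    rw [ht, ← habs]
    linarith
  have hNn : 0 ≤ ‖N‖ := norm_nonneg N
  have htN : ‖t • N‖ = t * ‖N‖ := by rw [norm_smul, Real.norm_eq_abs, abs_of_pos htpos]
  have hbt : ‖b‖ + ‖t • N‖ ≤ ‖b‖ * B := by
    rw [htN, hB]
    nlinarith [mul_le_mul_of_nonneg_right ht' hNn]
  have hTb := hT b (t • N) (hbt.trans_lt hτ1)
  rw [map_smul, hN, smul_eq_mul, mul_one, Real.norm_eq_abs] at hTb
  have hsmall : L * (‖b‖ + ‖t • N‖) * ‖t • N‖ ≤ t / 2 := by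
    rw [htN] at hbt ⊢
    have h1 : L * (‖b‖ + t * ‖N‖) * ‖N‖ ≤ 1 / 2 := by
      have h2 : L * (‖b‖ + t * ‖N‖) * ‖N‖ ≤ L * (‖b‖ * B) * (‖N‖ + 1) := by
        have h3 : L * (‖b‖ + t * ‖N‖) ≤ L * (‖b‖ * B) := mul_le_mul_of_nonneg_left hbt hL.le
        have h4 : 0 ≤ L * (‖b‖ * B) := by positivity
        exact mul_le_mul h3 (by linarith) hNn h4
      have h5 : L * (‖b‖ * B) * (‖N‖ + 1) = ‖b‖ * (2 * L * B * (‖N‖ + 1)) / 2 := by ring
      linarith
    calc L * (‖b‖ + t * ‖N‖) * (t * ‖N‖) = t * (L * (‖b‖ + t * ‖N‖) * ‖N‖) := by ring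
      _ ≤ t * (1 / 2) := mul_le_mul_of_nonneg_left h1 htpos.le
      _ = t / 2 := by ring
  have hout : 0 ≤ r (z + t • N) := by
    have e : f (b + t • N) = r (z + t • N) := by
      simp only [hf, hb]
      congr 1
      abel
    rw [e, hfz] at hTb
    have := (abs_le.1 hTb).1
    linarith
  have hzN : z + t • N ∉ D := by
    intro h
    have hU' : z + t • N ∈ U := by
      apply hu'
      rw [mem_ball, dist_eq_norm]
      have : z + t • N - p = b + t • N := by rw [hb]; abel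
      rw [this]
      exact ((norm_add_le _ _).trans hbt).trans_lt hτ2
    have : z + t • N ∈ D ∩ U := ⟨h, hU'⟩
    rw [hDU] at this
    exact absurd this.2 (not_lt.2 hout)
  have hI : infDist z (frontier D) ≤ 2 * ‖N‖ * (-(r z)) := by
    refine (infDist_frontier_le hzD hzN).trans (le_of_eq ?_)
    rw [dist_eq_norm]
    have : z - (z + t • N) = -(t • N) := by abel
    rw [this, norm_neg, htN, ht]
    ring
  have hin : |fderiv ℝ r p b| ≤ -(r z) + L * ‖b‖ ^ 2 := by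
    have h1 := abs_sub_abs_le_abs_sub (fderiv ℝ r p b) (f b)
    rw [abs_sub_comm, habs] at h1
    linarith
  refine numpar ‖b‖ (-(r z)) (fderiv ℝ r p b) A C ‖N‖ _ L A' hApos (by linarith) hNn hpar hI hin
    hL.le ?_ ?_
  · rw [div_le_iff₀ (by positivity)]
    have : (‖b‖ * (2 * L)) ^ 2 ≤ A ^ 2 := pow_le_pow_left₀ (by positivity) hτ5.le 2
    nlinarith
  · rw [← habs]
    rw [mul_comm] at hτ4
    linarith

end Pool.Agent.W646.CQ
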