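import Pool.Agent.W646.CQ.PureL
import Pool.Agent.W646.CQ.Asn

set_option autoImplicit false

/-!
# CQ-ST1: first half of a normal form step
-/

namespace Pool.Agent.W646.CQ

open Metric Set Filter Topology Asymptotics
open Pool.Agent.W722.Cq

/-- the coordinate change of the first half of a step -/
noncomputable def Th1 {k : ℕ} (J : ℕ) (b : V k) (κ : V k →L[ℂ] ℂ) (t : ℂ) (z : EE k) : EE k :=
  (z.1, z.2.1 + z.1 ^ J • b, z.2.2 + z.1 ^ J * κ z.2.1 + t * (z.1 ^ J * z.2.2))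

lemma Th1_smooth {k : ℕ} (J : ℕ) (b : V k) (κ : V k →L[ℂ] ℂ) (t : ℂ) :
    ContDiff ℂ ((⊤ : ℕ∞) : WithTop ℕ∞) (Th1 J b κ t) := by
  unfold Th1
  have h1 : ContDiff ℂ ((⊤ : ℕ∞) : WithTop ℕ∞) (fun z : EE k => z.1) := contDiff_fst
  have h2 : ContDiff ℂ ((⊤ : ℕ∞) : WithTop ℕ∞) (fun z : EE k => z.2.1) :=
    contDiff_fst.comp contDiff_snd
  have h3 : ContDiff ℂ ((⊤ : ℕ∞) : WithTop ℕ∞) (fun z : EE k => z.2.2) :=
    contDiff_snd.comp contDiff_snd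
  have h4 : ContDiff ℂ ((⊤ : ℕ∞) : WithTop ℕ∞) (fun z : EE k => κ z.2.1) := κ.contDiff.comp h2
  exact h1.prodMk ((h2.add ((h1.pow J).smul contDiff_const)).prodMk
    ((h3.add ((h1.pow J).mul h4)).add (contDiff_const.mul ((h1.pow J).mul h3))))

lemma Th1_fderiv {k : ℕ} (J : ℕ) (b : V k) (κ : V k →L[ℂ] ℂ) (t : ℂ) (z X : EE k) :
    fderiv ℂ (Th1 J b κ t) z X =
      (X.1, X.2.1 + ((J : ℂ) * z.1 ^ (J - 1) * X.1) • b,
        X.2.2 + (z.1 ^ J * κ X.2.1 + κ z.2.1 * ((J : ℂ) * z.1 ^ (J - 1) * X.1)) +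
          t * (z.1 ^ J * X.2.2 + z.2.2 * ((J : ℂ) * z.1 ^ (J - 1) * X.1))) := by
  have h1 : HasFDerivAt (fun z : EE k => z.1) (ContinuousLinearMap.fst ℂ ℂ (V k × ℂ)) z :=
    hasFDerivAt_fst
  have h2 : HasFDerivAt (fun z : EE k => z.2.1) ((ContinuousLinearMap.fst ℂ (V k) ℂ).comp
      (ContinuousLinearMap.snd ℂ ℂ (V k × ℂ))) z := hasFDerivAt_fst.comp z hasFDerivAt_snd
  have h3 : HasFDerivAt (fun z : EE k => z.2.2) ((ContinuousLinearMap.snd ℂ (V k) ℂ).comp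
      (ContinuousLinearMap.snd ℂ ℂ (V k × ℂ))) z := hasFDerivAt_snd.comp z hasFDerivAt_snd
  have h4 := h1.pow J
  have h5 : HasFDerivAt (fun z : EE k => κ z.2.1) (κ.comp ((ContinuousLinearMap.fst ℂ (V k) ℂ).comp
      (ContinuousLinearMap.snd ℂ ℂ (V k × ℂ)))) z := κ.hasFDerivAt.comp z h2
  have h6 := h1.prodMk ((h2.add (h4.smul_const b)).prodMk
    ((h3.add (h4.mul h5)).add ((h4.mul h3).const_mul t)))
  have h7 : fderiv ℂ (Th1 J b κ t) z = _ := h6.fderiv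
  rw [h7]
  simp [mul_assoc]
  ring

/-- local Lipschitz bound at the origin -/
lemma lip0 {E F : Type*} [NormedAddCommGroup E] [NormedSpace ℝ E] [NormedAddCommGroup F]
    [NormedSpace ℝ F] (f : E → F) (hf : ContDiff ℝ ((⊤ : ℕ∞) : WithTop ℕ∞) f) :
    ∃ C δ : ℝ, 0 < C ∧ 0 < δ ∧ ∀ Y : E, ‖Y‖ < δ → ‖f Y - f 0‖ ≤ C * ‖Y‖ := by
  have hd1 : DifferentiableAt ℝ f 0 := (hf.differentiable (by simp)) 0
  obtain ⟨L, hL, hL'⟩ := hd1.hasFDerivAt.isBigO_sub.exists_pos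
  obtain ⟨δ, hδ, h⟩ := Metric.eventually_nhds_iff_ball.1 hL'.bound
  refine ⟨L, δ, hL, hδ, fun Y hY => ?_⟩
  have := h Y (mem_ball_zero_iff.2 hY)
  rwa [sub_zero] at this

/-- the pure parts of the coefficients depend linearly on the direction -/
lemma exists_M (hE : S_EXT) {k : ℕ} (r : EE k → ℝ) (j : ℕ) (hN : Nrm r)
    (hRc : ∀ (y : V k) (σ : ℝ), Pure j (Rc r y σ)) :
    ∃ M : V k × ℝ →ₗ[ℝ] ℂ, ∀ (y : V k) (σ : ℝ),
      Pure (j + 1) (fun x => Rc r y σ x - (M (y, σ) * x ^ (j + 1)).re) := by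
  have hsm : ∀ (y : V k) (σ : ℝ), ContDiff ℝ ((⊤ : ℕ∞) : WithTop ℕ∞) (Rc r y σ) := by
    intro y σ
    have h1 : ContDiff ℝ ((⊤ : ℕ∞) : WithTop ℕ∞) (fderiv ℝ r) := hN.smooth.fderiv_right (by simp)
    have h2 : ContDiff ℝ ((⊤ : ℕ∞) : WithTop ℕ∞) (fun x : ℂ => ((x, 0, 0) : EE k)) :=
      contDiff_id.prodMk contDiff_const
    exact (h1.comp h2).clm_apply contDiff_const
  let bs := Module.finBasis ℝ (V k × ℝ)
  have h1 : ∀ i, ∃ a : ℂ, Pure (j + 1)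
      (fun x => Rc r (bs i).1 (bs i).2 x - (a * x ^ (j + 1)).re) := fun i =>
    hE _ j (hsm _ _) (hRc _ _)
  choose a ha using h1
  refine ⟨bs.constr ℝ a, ?_⟩
  intro y σ
  set v : V k × ℝ := (y, σ) with hv
  have hT : ∀ (v : V k × ℝ) (x : ℂ), Rc r v.1 v.2 x = (fderiv ℝ r (x, 0, 0)) (TT k v) := by
    intro v x
    have : TT k v = (0, v.1, (v.2 : ℂ) * Complex.I) := TT_apply k v.1 v.2
    rw [this]
    rfl
  have hsum : ∀ x, Rc r y σ x - ((bs.constr ℝ a) v * x ^ (j + 1)).re =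
      ∑ i, (bs.repr v i) * (Rc r (bs i).1 (bs i).2 x - (a i * x ^ (j + 1)).re) := by
    intro x
    have e1 : Rc r y σ x = ∑ i, (bs.repr v i) * Rc r (bs i).1 (bs i).2 x := by
      have e2 : Rc r y σ x = (fderiv ℝ r (x, 0, 0)) (TT k v) := hT v x
      rw [e2]
      conv_lhs => rw [← bs.sum_repr v]
      rw [map_sum, map_sum]
      apply Finset.sum_congr rfl
      intro i _
      rw [map_smul, map_smul, hT (bs i) x, smul_eq_mul]
    have e3 : (bs.constr ℝ a) v = ∑ i, ((bs.repr v i : ℝ) : ℂ) * a i := by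
      rw [Module.Basis.constr_apply_fintype]
      apply Finset.sum_congr rfl
      intro i _
      rw [Module.Basis.equivFun_apply, Complex.real_smul]
    rw [e1, e3, Finset.sum_mul, Complex.re_sum, ← Finset.sum_sub_distrib]
    apply Finset.sum_congr rfl
    intro i _
    rw [mul_assoc, Complex.re_ofReal_mul]
    ring
  have := pure_sum Finset.univ (fun i x => (bs.repr v i) *
    (Rc r (bs i).1 (bs i).2 x - (a i * x ^ (j + 1)).re)) (fun i _ => pure_smul _ (ha i))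
  refine pure_congr this ?_
  have e0 : (fun x => (Rc r y σ x - ((bs.constr ℝ a) v * x ^ (j + 1)).re) -
      ∑ i, (bs.repr v i) * (Rc r (bs i).1 (bs i).2 x - (a i * x ^ (j + 1)).re)) = fun _ => 0 := by
    funext x
    rw [hsum x, sub_self]
  rw [e0]
  exact isBigO_zero _ _

set_option maxHeartbeats 1600000 in
theorem st1 : S_EXT → S_ALG → S_ST1 := by
  intro hE hA k r j hN hcur hRc
  obtain ⟨M, hM⟩ := exists_M hE r j hN hRc
  obtain ⟨b, κ, t, hbkt⟩ := hA k M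
  have hsm := Th1_smooth (j + 1) b κ t
  have hD0 : ∀ (b : V k) (κ : V k →L[ℂ] ℂ) (t : ℂ) (X : EE k),
      fderiv ℂ (Th1 (j + 1) b κ t) 0 X =
      (X.1, X.2.1 + (((j + 1 : ℕ) : ℂ) * 0 ^ j * X.1) • b, X.2.2) := by
    intro b κ t X
    rw [Th1_fderiv]
    simp
  have hDx : ∀ (x : ℂ) (y : V k) (w : ℂ),
      fderiv ℂ (Th1 (j + 1) b κ t) (x, 0, 0) (0, y, w) =
      (0, y, w) + (0, 0, x ^ (j + 1) * κ y + t * (x ^ (j + 1) * w)) := by
    intro x y w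
    rw [Th1_fderiv]
    simp [add_assoc]
  have hΘx : ∀ x : ℂ, Th1 (j + 1) b κ t (x, 0, 0) = (x, 0, 0) + (0, x ^ (j + 1) • b, 0) := by
    intro x
    simp [Th1]
  have hnb : ∀ x : ℂ, ‖((x, 0, 0) : EE k)‖ = ‖x‖ := by
    intro x
    rw [Prod.norm_def, Prod.norm_def]
    simp
  have hnY : ∀ y : V k, ‖((0, y, 0) : EE k)‖ = ‖y‖ := by
    intro y
    rw [Prod.norm_def, Prod.norm_def]
    simp
  have hnW : ∀ w : ℂ, ‖((0, 0, w) : EE k)‖ = ‖w‖ := by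
    intro w
    rw [Prod.norm_def, Prod.norm_def]
    simp
  have hsmall : ∀ x : ℂ, ‖x‖ < 1 → ‖((0, x ^ (j + 1) • b, 0) : EE k)‖ = ‖x‖ ^ (j + 1) * ‖b‖ ∧
      ‖x‖ ^ (j + 1) * ‖b‖ ≤ ‖x‖ * ‖b‖ := by
    intro x hx
    rw [hnY, norm_smul, norm_pow]
    refine ⟨rfl, ?_⟩
    apply mul_le_mul_of_nonneg_right _ (norm_nonneg b)
    exact pow_le_of_le_one (norm_nonneg x) hx.le (by omega)
  have hBpos : 0 < 1 + ‖b‖ := by positivity
  refine ⟨Th1 (j + 1) b κ t, hsm, by simp [Th1], ?_, ?_, ?_, ?_⟩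
  · refine ⟨ContinuousLinearEquiv.equivOfInverse (fderiv ℂ (Th1 (j + 1) b κ t) 0)
      (fderiv ℂ (Th1 (j + 1) (-b) κ t) 0) ?_ ?_, rfl⟩
    · intro X
      rw [hD0, hD0]
      simp
    · intro X
      rw [hD0, hD0]
      simp
  · apply nrm_comp r hN _ hsm
    · intro y w
      simp [Th1]
    · intro X
      rw [hD0]
  · apply pure_congr hcur
    obtain ⟨L, δ, hL, hδ, hT⟩ := fo r hN.smooth
    apply IsBigO.of_bound (L * (1 + ‖b‖) * ‖b‖)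
    filter_upwards [ball_mem_nhds (0 : ℂ) (show 0 < δ / (1 + ‖b‖) by positivity),
      ball_mem_nhds (0 : ℂ) one_pos] with x hx hx1
    rw [mem_ball_zero_iff] at hx hx1
    obtain ⟨hs1, hs2⟩ := hsmall x hx1
    rw [lt_div_iff₀ hBpos] at hx
    have h1 := hT (x, 0, 0) (0, x ^ (j + 1) • b, 0) (by
      rw [hnb, hs1]
      linarith)
    rw [hN.d1, hnb, hs1] at h1
    have h2 : cur (fun z => r (Th1 (j + 1) b κ t z)) x - cur r x =
        r ((x, 0, 0) + (0, x ^ (j + 1) • b, 0)) - r (x, 0, 0) - (0 : ℂ).re := by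
      show r (Th1 (j + 1) b κ t (x, 0, 0)) - r (x, 0, 0) = _
      rw [hΘx]
      simp
    rw [h2, norm_pow, norm_norm]
    refine h1.trans ?_
    have h3 : (0 : ℝ) ≤ ‖x‖ ^ (j + 1) * ‖b‖ := by positivity
    calc L * (‖x‖ + ‖x‖ ^ (j + 1) * ‖b‖) * (‖x‖ ^ (j + 1) * ‖b‖)
        ≤ L * (‖x‖ + ‖x‖ * ‖b‖) * (‖x‖ ^ (j + 1) * ‖b‖) := by gcongr
      _ = L * (1 + ‖b‖) * ‖b‖ * ‖x‖ ^ (j + 1 + 1) := by ring
  · intro y σ
    apply pure_congr (hM y σ)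
    have hG : ContDiff ℝ ((⊤ : ℕ∞) : WithTop ℕ∞) (fderiv ℝ r) := hN.smooth.fderiv_right (by simp)
    obtain ⟨L, δ, hL, hδ, hT⟩ := fo (fderiv ℝ r) hG
    obtain ⟨C, δ', hC, hδ', hT'⟩ := lip0 (fderiv ℝ r) hG
    set Y0 : EE k := (0, y, (σ : ℂ) * Complex.I) with hY0
    set w0 : ℂ := κ y + t * ((σ : ℂ) * Complex.I) with hw0
    apply IsBigO.of_bound (L * (1 + ‖b‖) * ‖b‖ * ‖Y0‖ + C * (1 + ‖b‖) * ‖w0‖)
    filter_upwards [ball_mem_nhds (0 : ℂ) (show 0 < δ / (1 + ‖b‖) by positivity),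
      ball_mem_nhds (0 : ℂ) (show 0 < δ' / (1 + ‖b‖) by positivity),
      ball_mem_nhds (0 : ℂ) one_pos] with x hx hx' hx1
    rw [mem_ball_zero_iff] at hx hx' hx1
    obtain ⟨hs1, hs2⟩ := hsmall x hx1
    rw [lt_div_iff₀ hBpos] at hx hx'
    set b' : EE k := (x, 0, 0) with hb'
    set Y : EE k := (0, x ^ (j + 1) • b, 0) with hY
    have h1 := hT b' Y (by
      rw [hnb, hs1]
      linarith)
    have hsum : ‖b' + Y‖ ≤ (1 + ‖b‖) * ‖x‖ := by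
      refine (norm_add_le _ _).trans ?_
      rw [hnb, hs1]
      linarith
    have h2 := hT' (b' + Y) (by linarith)
    have h3 : Rc (fun z => r (Th1 (j + 1) b κ t z)) y σ x =
        fderiv ℝ r (b' + Y) (Y0 + (0, 0, x ^ (j + 1) * w0)) := by
      show fderiv ℝ (fun z => r (Th1 (j + 1) b κ t z)) (x, 0, 0) (0, y, (σ : ℂ) * Complex.I) = _
      rw [fderiv_comp_hol r hN.smooth _ hsm, hDx, hΘx]
      congr 1
      rw [hY0, hw0]
      congr 3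
      ring
    have h4 : fderiv ℝ r b' Y0 = Rc r y σ x := rfl
    have h5 : fderiv ℝ (fderiv ℝ r) 0 Y Y0 = 2 * (inner ℂ y (x ^ (j + 1) • b) : ℂ).re :=
      polar r hN _ y σ
    have h6 : fderiv ℝ r 0 ((0, 0, x ^ (j + 1) * w0) : EE k) = (x ^ (j + 1) * w0).re := hN.d1 _
    have h7 := hbkt (x ^ (j + 1)) y σ
    have h8 : (x ^ (j + 1) * w0).re = (x ^ (j + 1) * κ y).re +
        (t * x ^ (j + 1) * ((σ : ℂ) * Complex.I)).re := by
      rw [← Complex.add_re, hw0]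
      congr 1
      ring
    have h9 : Rc (fun z => r (Th1 (j + 1) b κ t z)) y σ x -
        (Rc r y σ x - (M (y, σ) * x ^ (j + 1)).re) =
        (fderiv ℝ r (b' + Y) - fderiv ℝ r b' - fderiv ℝ (fderiv ℝ r) 0 Y) Y0 +
        (fderiv ℝ r (b' + Y) - fderiv ℝ r 0) (0, 0, x ^ (j + 1) * w0) := by
      rw [h3, map_add]
      simp only [sub_apply]
      rw [h4, h5, h6, h8]
      linarith
    rw [h9, norm_pow, norm_norm]
    refine (norm_add_le _ _).trans ?_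
    have g1 : ‖(fderiv ℝ r (b' + Y) - fderiv ℝ r b' - fderiv ℝ (fderiv ℝ r) 0 Y) Y0‖ ≤
        L * (1 + ‖b‖) * ‖b‖ * ‖Y0‖ * ‖x‖ ^ (j + 1 + 1) := by
      refine (ContinuousLinearMap.le_opNorm _ _).trans ?_
      have : L * (1 + ‖b‖) * ‖b‖ * ‖Y0‖ * ‖x‖ ^ (j + 1 + 1) =
          (L * (‖x‖ + ‖x‖ * ‖b‖) * (‖x‖ ^ (j + 1) * ‖b‖)) * ‖Y0‖ := by ring
      rw [this]
      apply mul_le_mul_of_nonneg_right _ (norm_nonneg _)
      refine h1.trans ?_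
      rw [hnb, hs1]
      have h3 : (0 : ℝ) ≤ ‖x‖ ^ (j + 1) * ‖b‖ := by positivity
      gcongr
    have g2 : ‖(fderiv ℝ r (b' + Y) - fderiv ℝ r 0) (0, 0, x ^ (j + 1) * w0)‖ ≤
        C * (1 + ‖b‖) * ‖w0‖ * ‖x‖ ^ (j + 1 + 1) := by
      refine (ContinuousLinearMap.le_opNorm _ _).trans ?_
      rw [hnW, norm_mul, norm_pow]
      have : C * (1 + ‖b‖) * ‖w0‖ * ‖x‖ ^ (j + 1 + 1) =
        (C * ((1 + ‖b‖) * ‖x‖)) * (‖x‖ ^ (j + 1) * ‖w0‖) := by ring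
      rw [this]
      apply mul_le_mul_of_nonneg_right _ (by positivity)
      refine h2.trans ?_
      exact mul_le_mul_of_nonneg_left hsum hC.le
    linarith

end Pool.Agent.W646.CQ
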