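import Pool.Agent.W646.CQ.St1

set_option autoImplicit false

/-!
# CQ-ST2: second half of a normal form step; CQ-NFN: the normal form of every order
-/

namespace Pool.Agent.W646.CQ

open Metric Set Filter Topology Asymptotics
open Pool.Agent.W722.Cq

/-- the coordinate change of the second half of a step -/
noncomputable def Th2 {k : ℕ} (K : ℕ) (a : ℂ) (z : EE k) : EE k :=
  (z.1, z.2.1, z.2.2 + a * z.1 ^ K)

lemma Th2_smooth {k : ℕ} (K : ℕ) (a : ℂ) :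
    ContDiff ℂ ((⊤ : ℕ∞) : WithTop ℕ∞) (Th2 (k := k) K a) := by
  unfold Th2
  have h1 : ContDiff ℂ ((⊤ : ℕ∞) : WithTop ℕ∞) (fun z : EE k => z.1) := contDiff_fst
  have h2 : ContDiff ℂ ((⊤ : ℕ∞) : WithTop ℕ∞) (fun z : EE k => z.2.1) :=
    contDiff_fst.comp contDiff_snd
  have h3 : ContDiff ℂ ((⊤ : ℕ∞) : WithTop ℕ∞) (fun z : EE k => z.2.2) :=
    contDiff_snd.comp contDiff_snd
  exact h1.prodMk (h2.prodMk (h3.add (contDiff_const.mul (h1.pow K))))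

lemma Th2_fderiv {k : ℕ} (K : ℕ) (a : ℂ) (z X : EE k) :
    fderiv ℂ (Th2 K a) z X =
      (X.1, X.2.1, X.2.2 + a * ((K : ℂ) * z.1 ^ (K - 1) * X.1)) := by
  have h1 : HasFDerivAt (fun z : EE k => z.1) (ContinuousLinearMap.fst ℂ ℂ (V k × ℂ)) z :=
    hasFDerivAt_fst
  have h2 : HasFDerivAt (fun z : EE k => z.2.1) ((ContinuousLinearMap.fst ℂ (V k) ℂ).comp
      (ContinuousLinearMap.snd ℂ ℂ (V k × ℂ))) z := hasFDerivAt_fst.comp z hasFDerivAt_snd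
  have h3 : HasFDerivAt (fun z : EE k => z.2.2) ((ContinuousLinearMap.snd ℂ (V k) ℂ).comp
      (ContinuousLinearMap.snd ℂ ℂ (V k × ℂ))) z := hasFDerivAt_snd.comp z hasFDerivAt_snd
  have h6 := h1.prodMk (h2.prodMk (h3.add ((h1.pow K).const_mul a)))
  have h7 : fderiv ℂ (Th2 K a) z = _ := h6.fderiv
  rw [h7]
  simp [mul_assoc]

set_option maxHeartbeats 1600000 in
theorem st2 : S_EXT → S_ST2 := by
  intro hE k r j hN hcur hRc
  have hcs : ContDiff ℝ ((⊤ : ℕ∞) : WithTop ℕ∞) (cur r) := by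
    have h2 : ContDiff ℝ ((⊤ : ℕ∞) : WithTop ℕ∞) (fun x : ℂ => ((x, 0, 0) : EE k)) :=
      contDiff_id.prodMk contDiff_const
    exact hN.smooth.comp h2
  obtain ⟨a, ha⟩ := hE (cur r) (j + 1) hcs hcur
  have hsm := Th2_smooth (k := k) (j + 2) (-a)
  have hD0 : ∀ (a : ℂ) (X : EE k), fderiv ℂ (Th2 (j + 2) a) 0 X = X := by
    intro a X
    rw [Th2_fderiv]
    simp
  have hDx : ∀ (x : ℂ) (y : V k) (w : ℂ),
      fderiv ℂ (Th2 (j + 2) (-a)) (x, 0, 0) (0, y, w) = (0, y, w) := by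
    intro x y w
    rw [Th2_fderiv]
    simp
  have hΘx : ∀ x : ℂ, Th2 (k := k) (j + 2) (-a) (x, 0, 0) = (x, 0, 0) + (0, 0, -a * x ^ (j + 2)) := by
    intro x
    simp [Th2]
  have hnb : ∀ x : ℂ, ‖((x, 0, 0) : EE k)‖ = ‖x‖ := by
    intro x
    rw [Prod.norm_def, Prod.norm_def]
    simp
  have hnW : ∀ w : ℂ, ‖((0, 0, w) : EE k)‖ = ‖w‖ := by
    intro w
    rw [Prod.norm_def, Prod.norm_def]
    simp
  have hsmall : ∀ x : ℂ, ‖x‖ < 1 → ‖((0, 0, -a * x ^ (j + 2)) : EE k)‖ = ‖x‖ ^ (j + 2) * ‖a‖ ∧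
      ‖x‖ ^ (j + 2) * ‖a‖ ≤ ‖x‖ * ‖a‖ := by
    intro x hx
    rw [hnW, norm_mul, norm_neg, norm_pow, mul_comm]
    refine ⟨rfl, ?_⟩
    apply mul_le_mul_of_nonneg_right _ (norm_nonneg a)
    exact pow_le_of_le_one (norm_nonneg x) hx.le (by omega)
  have hBpos : 0 < 1 + ‖a‖ := by positivity
  refine ⟨Th2 (j + 2) (-a), hsm, by simp [Th2], ?_, ?_, ?_, ?_⟩
  · have : fderiv ℂ (Th2 (k := k) (j + 2) (-a)) 0 = ContinuousLinearMap.id ℂ (EE k) := by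
      refine ContinuousLinearMap.ext fun X => ?_
      exact hD0 _ X
    rw [this]
    exact ⟨ContinuousLinearEquiv.refl ℂ (EE k), rfl⟩
  · apply nrm_comp r hN _ hsm
    · intro y w
      simp [Th2]
    · intro X
      rw [hD0]
  · apply pure_congr ha
    obtain ⟨L, δ, hL, hδ, hT⟩ := fo r hN.smooth
    apply IsBigO.of_bound (L * (1 + ‖a‖) * ‖a‖)
    filter_upwards [ball_mem_nhds (0 : ℂ) (show 0 < δ / (1 + ‖a‖) by positivity),
      ball_mem_nhds (0 : ℂ) one_pos] with x hx hx1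
    rw [mem_ball_zero_iff] at hx hx1
    obtain ⟨hs1, hs2⟩ := hsmall x hx1
    rw [lt_div_iff₀ hBpos] at hx
    have h1 := hT (x, 0, 0) (0, 0, -a * x ^ (j + 2)) (by
      rw [hnb, hs1]
      linarith)
    rw [hN.d1, hnb, hs1] at h1
    have h2 : cur (fun z => r (Th2 (j + 2) (-a) z)) x - (cur r x - (a * x ^ (j + 1 + 1)).re) =
        r ((x, 0, 0) + (0, 0, -a * x ^ (j + 2))) - r (x, 0, 0) - (-a * x ^ (j + 2)).re := by
      show r (Th2 (j + 2) (-a) (x, 0, 0)) - (r (x, 0, 0) - (a * x ^ (j + 1 + 1)).re) = _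
      rw [hΘx, neg_mul, Complex.neg_re]
      ring
    rw [h2, norm_pow, norm_norm]
    refine h1.trans ?_
    have h3 : (0 : ℝ) ≤ ‖x‖ ^ (j + 2) * ‖a‖ := by positivity
    calc L * (‖x‖ + ‖x‖ ^ (j + 2) * ‖a‖) * (‖x‖ ^ (j + 2) * ‖a‖)
        ≤ L * (‖x‖ + ‖x‖ * ‖a‖) * (‖x‖ ^ (j + 2) * ‖a‖) := by gcongr
      _ = L * (1 + ‖a‖) * ‖a‖ * ‖x‖ ^ (j + 1 + 1 + 1) := by ring
  · intro y σ
    apply pure_congr (hRc y σ)
    have hG : ContDiff ℝ ((⊤ : ℕ∞) : WithTop ℕ∞) (fderiv ℝ r) := hN.smooth.fderiv_right (by simp)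
    obtain ⟨L, δ, hL, hδ, hT⟩ := fo (fderiv ℝ r) hG
    set Y0 : EE k := (0, y, (σ : ℂ) * Complex.I) with hY0
    set A := ‖fderiv ℝ (fderiv ℝ r) 0‖ with hA
    apply IsBigO.of_bound ((L * (1 + ‖a‖) + A) * ‖a‖ * ‖Y0‖)
    filter_upwards [ball_mem_nhds (0 : ℂ) (show 0 < δ / (1 + ‖a‖) by positivity),
      ball_mem_nhds (0 : ℂ) one_pos] with x hx hx1
    rw [mem_ball_zero_iff] at hx hx1
    obtain ⟨hs1, hs2⟩ := hsmall x hx1
    rw [lt_div_iff₀ hBpos] at hx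
    set b' : EE k := (x, 0, 0) with hb'
    set Y : EE k := (0, 0, -a * x ^ (j + 2)) with hY
    have h1 := hT b' Y (by
      rw [hnb, hs1]
      linarith)
    have h3 : Rc (fun z => r (Th2 (j + 2) (-a) z)) y σ x = fderiv ℝ r (b' + Y) Y0 := by
      show fderiv ℝ (fun z => r (Th2 (j + 2) (-a) z)) (x, 0, 0) (0, y, (σ : ℂ) * Complex.I) = _
      rw [fderiv_comp_hol r hN.smooth _ hsm, hDx, hΘx]
    have h4 : Rc r y σ x = fderiv ℝ r b' Y0 := rfl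
    rw [h3, h4, ← sub_apply, norm_pow, norm_norm]
    refine (ContinuousLinearMap.le_opNorm _ _).trans ?_
    have h5 : ‖fderiv ℝ r (b' + Y) - fderiv ℝ r b'‖ ≤
        ‖fderiv ℝ r (b' + Y) - fderiv ℝ r b' - fderiv ℝ (fderiv ℝ r) 0 Y‖ +
          ‖fderiv ℝ (fderiv ℝ r) 0 Y‖ := by
      have := norm_add_le (fderiv ℝ r (b' + Y) - fderiv ℝ r b' - fderiv ℝ (fderiv ℝ r) 0 Y)
        (fderiv ℝ (fderiv ℝ r) 0 Y)
      simpa using this
    have h6 : ‖fderiv ℝ (fderiv ℝ r) 0 Y‖ ≤ A * ‖Y‖ := ContinuousLinearMap.le_opNorm _ _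
    have h7 : (L * (1 + ‖a‖) + A) * ‖a‖ * ‖Y0‖ * ‖x‖ ^ (j + 1 + 1) =
        (L * (1 + ‖a‖) * (‖x‖ ^ (j + 2) * ‖a‖) + A * (‖x‖ ^ (j + 2) * ‖a‖)) * ‖Y0‖ := by ring
    rw [h7]
    apply mul_le_mul_of_nonneg_right _ (norm_nonneg _)
    rw [hs1] at h6
    rw [hnb, hs1] at h1
    refine h5.trans (add_le_add (h1.trans ?_) h6)
    have h8 : (0 : ℝ) ≤ ‖x‖ ^ (j + 2) * ‖a‖ := by positivity
    apply mul_le_mul_of_nonneg_right _ h8
    apply mul_le_mul_of_nonneg_left _ hL.le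
    have h9 : ‖x‖ * ‖a‖ ≤ ‖a‖ := by
      have := mul_le_mul_of_nonneg_right hx1.le (norm_nonneg a)
      linarith
    linarith

lemma pure_of_bigO {j : ℕ} {f : ℂ → ℝ} (h : f =O[𝓝 (0 : ℂ)] (fun x => ‖x‖ ^ (j + 1))) :
    Pure j f := by
  apply pure_congr (pure_zero j)
  simpa using h

theorem nfn : S_ST1 → S_ST2 → S_NFN := by
  intro h1 h2 k r hN N
  induction N with
  | zero =>
    refine ⟨fun z => z, contDiff_id, rfl, ?_, hN, ?_, ?_⟩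
    · have : fderiv ℂ (fun z : EE k => z) 0 = ContinuousLinearMap.id ℂ (EE k) := fderiv_fun_id
      rw [this]
      exact ⟨ContinuousLinearEquiv.refl ℂ (EE k), rfl⟩
    · obtain ⟨L, δ, hL, hδ, hT⟩ := fo r hN.smooth
      apply pure_of_bigO
      apply IsBigO.of_bound L
      filter_upwards [ball_mem_nhds (0 : ℂ) hδ] with x hx
      rw [mem_ball_zero_iff] at hx
      have hnb : ‖((x, 0, 0) : EE k)‖ = ‖x‖ := by
        rw [Prod.norm_def, Prod.norm_def]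
        simp
      have h3 := hT 0 (x, 0, 0) (by
        rw [norm_zero, zero_add, hnb]
        exact hx)
      rw [hN.d1, zero_add, hN.zero, norm_zero, zero_add, hnb] at h3
      rw [norm_pow, norm_norm]
      have e : L * ‖x‖ ^ (0 + 1 + 1) = L * ‖x‖ * ‖x‖ := by ring
      rw [e]
      have e2 : cur r x = r (x, 0, 0) - 0 - ((0 : ℂ)).re := by simp [cur]
      show ‖cur r x‖ ≤ _
      rw [e2]
      exact h3
    · intro y σ
      have hG : ContDiff ℝ ((⊤ : ℕ∞) : WithTop ℕ∞) (fderiv ℝ r) := hN.smooth.fderiv_right (by simp)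
      obtain ⟨C, δ, hC, hδ, hT⟩ := lip0 (fderiv ℝ r) hG
      apply pure_of_bigO
      apply IsBigO.of_bound (C * ‖((0, y, (σ : ℂ) * Complex.I) : EE k)‖)
      filter_upwards [ball_mem_nhds (0 : ℂ) hδ] with x hx
      rw [mem_ball_zero_iff] at hx
      have hnb : ‖((x, 0, 0) : EE k)‖ = ‖x‖ := by
        rw [Prod.norm_def, Prod.norm_def]
        simp
      have h3 := hT (x, 0, 0) (by rwa [hnb])
      rw [hnb] at h3
      have h4 : fderiv ℝ r 0 (0, y, (σ : ℂ) * Complex.I) = 0 := by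
        rw [hN.d1]
        simp
      have h5 : Rc r y σ x = (fderiv ℝ r (x, 0, 0) - fderiv ℝ r 0) (0, y, (σ : ℂ) * Complex.I) := by
        rw [sub_apply, h4, sub_zero]
        rfl
      show ‖Rc r y σ x‖ ≤ _
      rw [h5, norm_pow, norm_norm]
      refine (ContinuousLinearMap.le_opNorm _ _).trans ?_
      have e : C * ‖((0, y, (σ : ℂ) * Complex.I) : EE k)‖ * ‖x‖ ^ (0 + 1) =
        C * ‖x‖ * ‖((0, y, (σ : ℂ) * Complex.I) : EE k)‖ := by ring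
      rw [e]
      exact mul_le_mul_of_nonneg_right h3 (norm_nonneg _)
  | succ N ih =>
    obtain ⟨Θ, hΘ, hΘ0, hΘi, hNr, hc, hR⟩ := ih
    obtain ⟨Θ1, hΘ1, hΘ10, hΘ1i, hNr1, hc1, hR1⟩ := h1 k (fun z => r (Θ z)) N hNr hc hR
    obtain ⟨Θ2, hΘ2, hΘ20, hΘ2i, hNr2, hc2, hR2⟩ :=
      h2 k (fun z => r (Θ (Θ1 z))) N hNr1 hc1 hR1
    refine ⟨fun z => Θ (Θ1 (Θ2 z)), hΘ.comp (hΘ1.comp hΘ2), ?_, ?_, hNr2, hc2, hR2⟩
    · show Θ (Θ1 (Θ2 0)) = 0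
      rw [hΘ20, hΘ10, hΘ0]
    · have d0 : HasFDerivAt Θ2 (fderiv ℂ Θ2 0) 0 := ((hΘ2.differentiable (by simp)) 0).hasFDerivAt
      have d1 : HasFDerivAt Θ1 (fderiv ℂ Θ1 0) (Θ2 0) := by
        rw [hΘ20]
        exact ((hΘ1.differentiable (by simp)) 0).hasFDerivAt
      have d2 : HasFDerivAt Θ (fderiv ℂ Θ 0) (Θ1 (Θ2 0)) := by
        rw [hΘ20, hΘ10]
        exact ((hΘ.differentiable (by simp)) 0).hasFDerivAt
      have d3 : fderiv ℂ (fun z => Θ (Θ1 (Θ2 z))) 0 =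
          (fderiv ℂ Θ 0).comp ((fderiv ℂ Θ1 0).comp (fderiv ℂ Θ2 0)) :=
        (d2.comp (0 : EE k) (d1.comp (0 : EE k) d0)).fderiv
      rw [d3]
      exact hΘi.comp (hΘ1i.comp hΘ2i)

end Pool.Agent.W646.CQ
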