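import Pool.Agent.W646.CQ.Taylor

set_option autoImplicit false

/-!
# CQ: algebra of the predicate `Pure`, derivatives along real lines
-/

namespace Pool.Agent.W646.CQ

open Metric Set Filter Topology Asymptotics
open Pool.Agent.W722.Cq

lemma Mx_add (j : ℕ) (c c' : ℕ → ℕ → ℂ) (x : ℂ) :
    Mx j (fun a b => c a b + c' a b) x = Mx j c x + Mx j c' x := by
  unfold Mx
  rw [← Complex.add_re, ← Finset.sum_add_distrib]
  congr 1
  apply Finset.sum_congr rfl
  intro a _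
  rw [← Finset.sum_add_distrib]
  apply Finset.sum_congr rfl
  intro b _
  ring

lemma Mx_smul (j : ℕ) (v : ℝ) (c : ℕ → ℕ → ℂ) (x : ℂ) :
    Mx j (fun a b => (v : ℂ) * c a b) x = v * Mx j c x := by
  unfold Mx
  rw [← Complex.re_ofReal_mul, Finset.mul_sum]
  congr 1
  apply Finset.sum_congr rfl
  intro a _
  rw [Finset.mul_sum]
  apply Finset.sum_congr rfl
  intro b _
  ring

lemma pure_congr {j : ℕ} {f g : ℂ → ℝ} (hf : Pure j f)
    (h : (fun x => g x - f x) =O[𝓝 (0 : ℂ)] (fun x => ‖x‖ ^ (j + 1))) : Pure j g := by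
  obtain ⟨c, hc⟩ := hf
  refine ⟨c, ?_⟩
  have := h.add hc
  refine this.congr_left ?_
  intro x
  ring

lemma pure_add {j : ℕ} {f g : ℂ → ℝ} (hf : Pure j f) (hg : Pure j g) :
    Pure j (fun x => f x + g x) := by
  obtain ⟨c, hc⟩ := hf
  obtain ⟨c', hc'⟩ := hg
  refine ⟨fun a b => c a b + c' a b, ?_⟩
  refine (hc.add hc').congr_left ?_
  intro x
  rw [Mx_add]
  ring

lemma pure_smul {j : ℕ} {f : ℂ → ℝ} (v : ℝ) (hf : Pure j f) : Pure j (fun x => v * f x) := by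
  obtain ⟨c, hc⟩ := hf
  refine ⟨fun a b => (v : ℂ) * c a b, ?_⟩
  refine (hc.const_mul_left v).congr_left ?_
  intro x
  rw [Mx_smul]
  ring

lemma pure_zero (j : ℕ) : Pure j (fun _ => 0) := by
  refine ⟨fun _ _ => 0, ?_⟩
  have : (fun x : ℂ => (0 : ℝ) - Mx j (fun _ _ => 0) x) = fun _ => 0 := by
    funext x
    simp [Mx]
  rw [this]
  exact isBigO_zero _ _

lemma pure_sum {ι : Type*} {j : ℕ} (s : Finset ι) (f : ι → ℂ → ℝ) (hf : ∀ i ∈ s, Pure j (f i)) :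
    Pure j (fun x => ∑ i ∈ s, f i x) := by
  classical
  induction s using Finset.induction_on with
  | empty => simpa using pure_zero j
  | insert a s ha ih =>
    have h1 := ih fun i hi => hf i (Finset.mem_insert_of_mem hi)
    have h2 := hf a (Finset.mem_insert_self a s)
    have h3 := pure_add h2 h1
    have e : (fun x => ∑ i ∈ insert a s, f i x) = fun x => f a x + ∑ i ∈ s, f i x := by
      funext x
      rw [Finset.sum_insert ha]
    rw [e]
    exact h3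

section

variable {E : Type*} [NormedAddCommGroup E] [NormedSpace ℝ E]

/-- the second derivative in the direction `Y` twice depends only on the restriction to the real
line through `Y` -/
lemma snd_congr (f g : E → ℝ) (hf : ContDiff ℝ ((⊤ : ℕ∞) : WithTop ℕ∞) f)
    (hg : ContDiff ℝ ((⊤ : ℕ∞) : WithTop ℕ∞) g) (Y : E) (h : ∀ t : ℝ, f (t • Y) = g (t • Y)) :
    fderiv ℝ (fderiv ℝ f) 0 Y Y = fderiv ℝ (fderiv ℝ g) 0 Y Y := by
  have key : ∀ F : E → ℝ, ContDiff ℝ ((⊤ : ℕ∞) : WithTop ℕ∞) F →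
      deriv (deriv fun t : ℝ => F (t • Y)) 0 = fderiv ℝ (fderiv ℝ F) 0 Y Y := by
    intro F hF
    have hF1 : ContDiff ℝ ((⊤ : ℕ∞) : WithTop ℕ∞) (fderiv ℝ F) := hF.fderiv_right (by simp)
    have e1 : ∀ t : ℝ, HasDerivAt (fun t : ℝ => t • Y) Y t := by
      intro t
      simpa using (hasDerivAt_id t).smul_const Y
    have e2 : (deriv fun t : ℝ => F (t • Y)) = fun t => fderiv ℝ F (t • Y) Y := by
      funext t
      exact (((hF.differentiable (by simp)) (t • Y)).hasFDerivAt.comp_hasDerivAt t (e1 t)).deriv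
    rw [e2]
    have e3 : HasDerivAt (fun t : ℝ => fderiv ℝ F (t • Y)) (fderiv ℝ (fderiv ℝ F) (0 : E) Y) 0 := by
      have h0 : (0 : ℝ) • Y = 0 := zero_smul ℝ Y
      have := ((hF1.differentiable (by simp)) ((0 : ℝ) • Y)).hasFDerivAt.comp_hasDerivAt 0 (e1 0)
      rw [h0] at this
      exact this
    have e4 := e3.clm_apply (hasDerivAt_const (0 : ℝ) Y)
    simpa using e4.deriv
  rw [← key f hf, ← key g hg]
  have : (fun t : ℝ => f (t • Y)) = fun t : ℝ => g (t • Y) := funext h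
  rw [this]

end

/-- transport of the normalisation -/
lemma nrm_comp {k : ℕ} (r : EE k → ℝ) (hN : Nrm r) (Θ : EE k → EE k)
    (hΘ : ContDiff ℂ ((⊤ : ℕ∞) : WithTop ℕ∞) Θ)
    (h0 : ∀ (y : V k) (w : ℂ), Θ (0, y, w) = (0, y, w))
    (h1 : ∀ X : EE k, (fderiv ℂ Θ 0 X).2.2 = X.2.2) : Nrm (fun z => r (Θ z)) := by
  have hΘr : ContDiff ℝ ((⊤ : ℕ∞) : WithTop ℕ∞) Θ := hΘ.restrict_scalars ℝ
  have hs : ContDiff ℝ ((⊤ : ℕ∞) : WithTop ℕ∞) (fun z => r (Θ z)) := hN.smooth.comp hΘr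
  have hΘ0 : Θ 0 = 0 := h0 0 0
  refine ⟨hs, ?_, ?_, ?_⟩
  · show r (Θ 0) = 0
    rw [hΘ0, hN.zero]
  · intro z
    have e1 : HasFDerivAt Θ ((fderiv ℂ Θ 0).restrictScalars ℝ) 0 :=
      ((hΘ.differentiable (by simp)) 0).hasFDerivAt.restrictScalars ℝ
    have e2 : HasFDerivAt r (fderiv ℝ r 0) (Θ 0) := by
      rw [hΘ0]
      exact ((hN.smooth.differentiable (by simp)) 0).hasFDerivAt
    have e3 : fderiv ℝ (fun z => r (Θ z)) 0 = (fderiv ℝ r 0).comp
        ((fderiv ℂ Θ 0).restrictScalars ℝ) := (e2.comp 0 e1).fderiv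
    rw [e3, ContinuousLinearMap.comp_apply, hN.d1, ContinuousLinearMap.coe_restrictScalars', h1]
  · intro y σ
    rw [← hN.d2 y σ]
    apply snd_congr _ _ hs hN.smooth
    intro t
    have : t • ((0, y, (σ : ℂ) * Complex.I) : EE k) = (0, t • y, t • ((σ : ℂ) * Complex.I)) := by
      simp
    rw [this, h0]

/-- the derivative of a composition with a holomorphic map -/
lemma fderiv_comp_hol {k : ℕ} (r : EE k → ℝ) (hr : ContDiff ℝ ((⊤ : ℕ∞) : WithTop ℕ∞) r)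
    (Θ : EE k → EE k) (hΘ : ContDiff ℂ ((⊤ : ℕ∞) : WithTop ℕ∞) Θ) (z X : EE k) :
    fderiv ℝ (fun z => r (Θ z)) z X = fderiv ℝ r (Θ z) (fderiv ℂ Θ z X) := by
  have e1 : HasFDerivAt Θ ((fderiv ℂ Θ z).restrictScalars ℝ) z :=
    ((hΘ.differentiable (by simp)) z).hasFDerivAt.restrictScalars ℝ
  have e2 : HasFDerivAt r (fderiv ℝ r (Θ z)) (Θ z) :=
    ((hr.differentiable (by simp)) (Θ z)).hasFDerivAt
  have e3 : fderiv ℝ (fun z => r (Θ z)) z = (fderiv ℝ r (Θ z)).comp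
      ((fderiv ℂ Θ z).restrictScalars ℝ) := (e2.comp z e1).fderiv
  rw [e3, ContinuousLinearMap.comp_apply, ContinuousLinearMap.coe_restrictScalars']

/-- polarisation of the second order normalisation -/
lemma polar {k : ℕ} (r : EE k → ℝ) (hN : Nrm r) (b y : V k) (σ : ℝ) :
    fderiv ℝ (fderiv ℝ r) 0 (0, b, 0) (0, y, (σ : ℂ) * Complex.I) = 2 * (inner ℂ y b : ℂ).re := by
  have hsym : IsSymmSndFDerivAt ℝ r 0 :=
    hN.smooth.contDiffAt.isSymmSndFDerivAt (by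
      rw [minSmoothness_of_isRCLikeNormedField]
      exact WithTop.coe_le_coe.2 le_top)
  set B := fderiv ℝ (fderiv ℝ r) 0 with hB
  have h1 := hN.d2 b 0
  have h2 := hN.d2 y σ
  have h3 := hN.d2 (b + y) σ
  have e0 : ((0 : ℝ) : ℂ) * Complex.I = 0 := by simp
  rw [e0] at h1
  have e1 : ((0, b + y, (σ : ℂ) * Complex.I) : EE k) = (0, b, 0) + (0, y, (σ : ℂ) * Complex.I) := by
    simp
  rw [e1, map_add, map_add, add_apply, add_apply] at h3
  have h4 : B (0, y, (σ : ℂ) * Complex.I) (0, b, 0) = B (0, b, 0) (0, y, (σ : ℂ) * Complex.I) :=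
    hsym _ _
  rw [← hB] at h1 h2 h3
  rw [h4, h1, h2] at h3
  have h5 : ‖b + y‖ ^ 2 = ‖b‖ ^ 2 + 2 * (inner ℂ b y : ℂ).re + ‖y‖ ^ 2 :=
    norm_add_sq (𝕜 := ℂ) b y
  have h6 : (inner ℂ b y : ℂ).re = (inner ℂ y b : ℂ).re := by
    have := inner_re_symm (𝕜 := ℂ) b y
    exact this
  rw [h5, h6] at h3
  linarith

end Pool.Agent.W646.CQ
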