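import Pool.Agent.W722.Cq.Stm

set_option autoImplicit false

/-!
# CQ: first and second order Taylor estimates near the origin, uniform in the base point
-/

namespace Pool.Agent.W646.CQ

open Metric Set Filter Topology Asymptotics
open Pool.Agent.W722.Cq

section

variable {E F : Type*} [NormedAddCommGroup E] [NormedSpace ℝ E] [NormedAddCommGroup F]
  [NormedSpace ℝ F]

/-- first order Taylor estimate near the origin, uniform in the base point, with the derivative at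
the origin -/
lemma fo (f : E → F) (hf : ContDiff ℝ ((⊤ : ℕ∞) : WithTop ℕ∞) f) :
    ∃ L δ : ℝ, 0 < L ∧ 0 < δ ∧ ∀ b Y : E, ‖b‖ + ‖Y‖ < δ →
      ‖f (b + Y) - f b - fderiv ℝ f 0 Y‖ ≤ L * (‖b‖ + ‖Y‖) * ‖Y‖ := by
  have hf1 : ContDiff ℝ ((⊤ : ℕ∞) : WithTop ℕ∞) (fderiv ℝ f) := hf.fderiv_right (by simp)
  have hd1 : DifferentiableAt ℝ (fderiv ℝ f) 0 := (hf1.differentiable (by simp)) 0
  obtain ⟨L, hL, hL'⟩ := hd1.hasFDerivAt.isBigO_sub.exists_pos
  obtain ⟨δ, hδ, h⟩ := Metric.eventually_nhds_iff_ball.1 hL'.bound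
  refine ⟨L, δ, hL, hδ, ?_⟩
  intro b Y hbY
  set ρ := ‖b‖ + ‖Y‖ with hρ
  have hb : b ∈ closedBall (0 : E) ρ := by
    rw [mem_closedBall_zero_iff]
    have := norm_nonneg Y
    linarith
  have hbY' : b + Y ∈ closedBall (0 : E) ρ := by
    rw [mem_closedBall_zero_iff]
    exact norm_add_le _ _
  have key := Convex.norm_image_sub_le_of_norm_fderiv_le' (𝕜 := ℝ) (f := f)
    (C := L * ρ) (s := closedBall (0 : E) ρ) (φ := fderiv ℝ f 0) (x := b) (y := b + Y)
    (fun x _ => (hf.differentiable (by simp)) x)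
    (fun x hx => by
      have hx' : ‖x‖ ≤ ρ := mem_closedBall_zero_iff.1 hx
      have := h x (mem_ball_zero_iff.2 (lt_of_le_of_lt hx' hbY))
      rw [sub_zero] at this
      exact this.trans (mul_le_mul_of_nonneg_left hx' hL.le))
    (convex_closedBall _ _) hb hbY'
  rwa [add_sub_cancel_left] at key

/-- second order Taylor estimate near the origin, uniform in the base point, with the second
derivative at the origin -/
lemma so (r : E → ℝ) (hr : ContDiff ℝ ((⊤ : ℕ∞) : WithTop ℕ∞) r) :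
    ∃ L δ : ℝ, 0 < L ∧ 0 < δ ∧ ∀ b Y : E, ‖b‖ + ‖Y‖ < δ →
      |r (b + Y) - r b - fderiv ℝ r b Y - 1 / 2 * fderiv ℝ (fderiv ℝ r) 0 Y Y| ≤
        L * (‖b‖ + ‖Y‖) * ‖Y‖ ^ 2 := by
  have hf1 : ContDiff ℝ ((⊤ : ℕ∞) : WithTop ℕ∞) (fderiv ℝ r) := hr.fderiv_right (by simp)
  obtain ⟨L, δ, hL, hδ, h⟩ := fo (fderiv ℝ r) hf1
  refine ⟨L, δ, hL, hδ, ?_⟩
  intro b Y hbY
  set κ := fderiv ℝ (fderiv ℝ r) 0 Y Y with hκ
  have hder : ∀ t : ℝ, HasDerivAt (fun t : ℝ => r (b + t • Y) - t * fderiv ℝ r b Y - t ^ 2 / 2 * κ)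
      (fderiv ℝ r (b + t • Y) Y - fderiv ℝ r b Y - t * κ) t := by
    intro t
    have e1 : HasDerivAt (fun t : ℝ => b + t • Y) Y t := by
      have := (hasDerivAt_id t).smul_const Y
      simpa using this.const_add b
    have e2 : HasDerivAt (fun t : ℝ => r (b + t • Y)) (fderiv ℝ r (b + t • Y) Y) t :=
      ((hr.differentiable (by simp)) (b + t • Y)).hasFDerivAt.comp_hasDerivAt t e1
    have e3 : HasDerivAt (fun t : ℝ => t * fderiv ℝ r b Y) (fderiv ℝ r b Y) t := by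
      simpa using (hasDerivAt_id t).mul_const (fderiv ℝ r b Y)
    have e4 : HasDerivAt (fun t : ℝ => t ^ 2 / 2 * κ) (t * κ) t := by
      have e5 : t * κ = ((2 : ℕ) : ℝ) * t ^ (2 - 1) / 2 * κ := by
        norm_num
      rw [e5]
      exact ((hasDerivAt_pow 2 t).div_const 2).mul_const κ
    exact (e2.sub e3).sub e4
  have hb : ∀ t ∈ Ico (0 : ℝ) 1,
      ‖fderiv ℝ r (b + t • Y) Y - fderiv ℝ r b Y - t * κ‖ ≤ L * (‖b‖ + ‖Y‖) * ‖Y‖ ^ 2 := by
    intro t ht
    have hn : ‖t • Y‖ ≤ ‖Y‖ := by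
      rw [norm_smul, Real.norm_eq_abs, abs_of_nonneg ht.1]
      have := norm_nonneg Y
      nlinarith [ht.2]
    have h1 := h b (t • Y) (by linarith)
    have h2 : fderiv ℝ r (b + t • Y) Y - fderiv ℝ r b Y - t * κ =
        (fderiv ℝ r (b + t • Y) - fderiv ℝ r b - fderiv ℝ (fderiv ℝ r) 0 (t • Y)) Y := by
      simp [hκ]
    rw [h2]
    refine (ContinuousLinearMap.le_opNorm _ _).trans ?_
    rw [pow_two, ← mul_assoc]
    apply mul_le_mul_of_nonneg_right _ (norm_nonneg _)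
    refine h1.trans ?_
    have := norm_nonneg b
    have := norm_nonneg Y
    have := norm_nonneg (t • Y)
    gcongr
  have key := norm_image_sub_le_of_norm_deriv_le_segment_01'
    (f := fun t : ℝ => r (b + t • Y) - t * fderiv ℝ r b Y - t ^ 2 / 2 * κ)
    (fun t _ => (hder t).hasDerivWithinAt) hb
  rw [Real.norm_eq_abs] at key
  convert key using 2
  simp only [one_smul, one_pow, zero_smul, add_zero, zero_mul, ne_eq, OfNat.ofNat_ne_zero,
    not_false_eq_true, zero_pow, zero_div, sub_zero, one_mul]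
  ring

end

end Pool.Agent.W646.CQ
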